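import Pool.Agent.N980.TL.Main3
import Pool.Agent.N980.TL.FN
import Pool.Agent.N980.TL.SUM
import Pool.Agent.N980.TL.DIO
import Pool.Agent.N980.TL.SEQ
import Pool.Agent.N980.TL.Cls
import Pool.Agent.N980.TL.XI
import Pool.Agent.N980.TL.Lip
import Pool.Agent.N980.TL.Gam
import Pool.Agent.N980.TL.BND3
import Pool.Agent.N980.TL.Per3
import Pool.Agent.N980.TL.Nrm
import Pool.Agent.N980.TL.Lam
import Pool.Agent.N980.TL.DENS

set_option autoImplicit false

/-!
# The potentials with orbits which tend to infinity are `C²`-dense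

Let `n = r + 2 ≥ 7`. For every `ℤ^n × ℤ`-periodic potential `f₀` of class `C²` and every `ε > 0` there
is a periodic potential `f` of class `C²` with `‖f - f₀‖_{C²} ≤ ε` such that the Lagrangian
`|v|²/2 + f(x,t)` has an orbit whose velocity is at least `c t^{6/25}`.

Idea of the proof: `f₀` is approximated by a trigonometric polynomial `D` (Fejér sums). A linear path
with a large velocity `V` which is far from the resonances of `D` is corrected to a path along which
Newton's equation for `D` holds up to `O(V^{-3})` (an averaging step). The velocity is increased by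
`~ 1/t^{19/25}` in every unit of time; the forces needed are produced by a moving bump potential of
radius `~ t^{-9/40}` around the path. The tubes of different periods of time are disjoint on
`𝕋^n × 𝕋`: one of the coordinates of the path (in suitable linear coordinates) is monotone and bounded,
`r` of them have a constant velocity which is badly approximable.

Leaves of the proof were written by helpers 657, 195, 644, 374, 881, 170, 327, 391, 262, 413, 263, 524,
796; see `Pool/Agent/N980/TL`.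
-/

open Filter Topology
open scoped ContDiff

namespace Pool.Agent.Results.MP_6acca1_an.DenseEscapingPotentials

open Pool.Agent.N980.TL

theorem result (r : ℕ) (hr : 5 ≤ r) (f₀ : (Fin (r + 2) → ℝ) → ℝ → ℝ)
    (hf₀ : ContDiff ℝ 2 (fun q : (Fin (r + 2) → ℝ) × ℝ => f₀ q.1 q.2)) (hper : Periodic f₀)
    (ε : ℝ) (hε : 0 < ε) :
    ∃ (f : (Fin (r + 2) → ℝ) → ℝ → ℝ) (γ : ℝ → Fin (r + 2) → ℝ),
      ContDiff ℝ 2 (fun q : (Fin (r + 2) → ℝ) × ℝ => f q.1 q.2) ∧ Periodic f ∧
      (∀ i ≤ 2, ∀ q, ‖iteratedFDeriv ℝ i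
        (fun q : (Fin (r + 2) → ℝ) × ℝ => f q.1 q.2 - f₀ q.1 q.2) q‖ ≤ ε) ∧
      (∃ c > 0, ∀ t, 0 ≤ t → c * t ^ (6 / 25 : ℝ) ≤ ‖deriv γ t‖) ∧
      ∀ t, 0 < t → EulerLagrange (fun x v t => (∑ i, v i ^ 2) / 2 + f x t) γ t := by
  obtain ⟨N, D, hD⟩ := dens_all (r + 2) (fun q => f₀ q.1 q.2) hf₀
    (fun x t k l => hper x t k l) (ε / 2) (half_pos hε)
  obtain ⟨F, γ, h1, h2, h3, h4, h5⟩ := main3 fn_all (xi_all cls_all) (lip_all cls_all)
    (gam_all fn_all cls_all (xi_all cls_all) (lip_all cls_all)) (bnd3_all fn_all) per3_all sum_all dio_all seq_all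
    nrm_all lam_all r hr N D (ε / 2) (half_pos hε)
  have hDs : ContDiff ℝ 2 (fun q : Z (r + 2) => D.val q.1 q.2) := (contDiff_infty.1 (val_smooth D)) 2
  refine ⟨fun x t => D.val x t + F (x, t), γ, hDs.add h1, ?_, ?_, h4, h5⟩
  · intro x t k l
    have e1 := val_periodic D x t k l
    have e2 := h2 x t k l
    simp only at e2
    show D.val (fun i => x i + k i) (t + l) + F ((fun i => x i + k i), t + l) = D.val x t + F (x, t)
    rw [e1, e2]
  · intro i hi q
    have hi' : (i : WithTop ℕ∞) ≤ 2 := by exact_mod_cast hi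
    have e : (fun q : (Fin (r + 2) → ℝ) × ℝ => D.val q.1 q.2 + F (q.1, q.2) - f₀ q.1 q.2) =
        F - fun q : Z (r + 2) => f₀ q.1 q.2 - D.val q.1 q.2 := by
      funext q
      show D.val q.1 q.2 + F (q.1, q.2) - f₀ q.1 q.2 = F q - (f₀ q.1 q.2 - D.val q.1 q.2)
      ring
    show ‖iteratedFDeriv ℝ i (fun q : (Fin (r + 2) → ℝ) × ℝ => D.val q.1 q.2 + F (q.1, q.2) - f₀ q.1 q.2) q‖ ≤ ε
    have hn : ContDiff ℝ 2 (-fun q : Z (r + 2) => f₀ q.1 q.2 - D.val q.1 q.2) := (hf₀.sub hDs).neg
    rw [e, sub_eq_add_neg, iteratedFDeriv_add_apply (h1.of_le hi').contDiffAt (hn.of_le hi').contDiffAt,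
      iteratedFDeriv_neg_apply]
    refine (norm_add_le _ _).trans ?_
    rw [norm_neg]
    linarith [h3 i hi q, hD i hi q]

end Pool.Agent.Results.MP_6acca1_an.DenseEscapingPotentials
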