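import Pool.Agent.N980.TL.Main4
import Pool.Agent.N980.TL.BL4
import Pool.Agent.N980.TL.EX4
import Pool.Agent.N980.TL.GR4

set_option autoImplicit false

/-!
# Velocity growth for `C²`-generic potentials

Let `n = r + 2 ≥ 7` and let `φ` be any function. There are open dense sets `O_m` of `ℤ^n × ℤ`-periodic
potentials of class `C²` such that for all `f` in the intersection of these sets (so for a residual set of
potentials) and all `K` the Lagrangian `|v|²/2 + f(x,t)` has an orbit segment with velocity `|v| ≥ K` which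
starts with some velocity `v₀` and ends with a velocity larger than `φ(|v₀|)`.

The sets are open by Gronwall's lemma, and dense because the potentials `f` with an orbit of
`|v|²/2 + f(x,t)` which tends to infinity are dense (`DenseEscapingPotentials`, `Pool/Agent/N980/TL`).

Leaves of the proof were written by helpers 406, 738, 235 (existence, bounds, Gronwall) and 657, 195, 644,
374, 881, 170, 327, 391, 262, 413, 263, 524, 796 (density); see `Pool/Agent/N980/TL`.
-/

open Set

namespace Pool.Agent.Results.MP_6acca1_an.GenericVelocityGrowth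

open Pool.Agent.N980.TL

theorem result (r : ℕ) (hr : 5 ≤ r) (φ : ℝ → ℝ) :
    ∃ O : ℕ → Set ((Fin (r + 2) → ℝ) → ℝ → ℝ), (∀ m, OpenDense (O m)) ∧
      ∀ f, (∀ m, f ∈ O m) → ∀ K : ℝ, ∃ (γ : ℝ → Fin (r + 2) → ℝ) (t0 t1 : ℝ), t0 < t1 ∧
        (∀ t ∈ Icc t0 t1, EulerLagrange (fun x v t => (∑ i, v i ^ 2) / 2 + f x t) γ t) ∧
        (∀ t ∈ Icc t0 t1, K ≤ ‖deriv γ t‖) ∧ φ ‖deriv γ t0‖ < ‖deriv γ t1‖ := by
  refine ⟨Gs r φ, fun m => openDense_Gs bl_all ex_all gr_all r hr φ m, fun f hf K => ?_⟩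
  obtain ⟨m, hm⟩ := exists_nat_ge K
  obtain ⟨-, γ, t0, t1, h1, h2, ⟨μ, hμ, h3⟩, h4⟩ := hf m
  exact ⟨γ, t0, t1, h1, h2, fun t ht => by linarith [h3 t ht], h4⟩

end Pool.Agent.Results.MP_6acca1_an.GenericVelocityGrowth
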