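import Pool.Agent.N980.TL.Main
import Pool.Agent.N980.TL.FN
import Pool.Agent.N980.TL.BND
import Pool.Agent.N980.TL.Per
import Pool.Agent.N980.TL.SUM
import Pool.Agent.N980.TL.DIO
import Pool.Agent.N980.TL.SEQ

set_option autoImplicit false

/-!
# Arbitrarily `C^k`-small potentials with orbits which tend to infinity

Let `k ≥ 2` and `n = r + 2 ≥ k + 2`. For every `ε > 0` and every slab `{|x_1 - p| < ε}` of the torus
`𝕋^n` there is a potential `f` of class `C^k` on `𝕋^n × 𝕋`, supported in the slab, all of whose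
derivatives of order at most `k` are bounded by `ε`, and a curve `γ` in the slab with
`|γ'(t)| ≥ c t^δ` (for any `δ < (r+1-k)/(r(k+1))`), such that `γ` is an orbit of `L + f` for every
Lagrangian `L` which is equal to `|v|²/2` on the slab; outside of the slab `L` is arbitrary.

Idea of the proof: the particle moves fast in the direction `x_0`, with a constant, nearly badly
approximable velocity in `r` directions, and with a velocity tending to zero, with convergent
position, in the direction `x_1`. So its positions at the times `j + s`, `j = 1, 2, …`, have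
mutual distances at least `c min(i,j)^(-1/r-0)`, also in the infinite future, and small moving bumps
around the particle, one for each unit of time and active for `1/4 ≤ s ≤ 3/4`, do not interact. They
accelerate it by `j^(δ-1)`, which is not summable.

Leaves of the proof were written by helpers 657, 881, 189, 195, 644, 374; see `Pool/Agent/N980/TL`.
-/

open scoped ContDiff

namespace Pool.Agent.Results.MP_6acca1_an.SmallPotentialEscape

open Pool.Agent.N980.TL

theorem result (k r : ℕ) (hk : 2 ≤ k) (hr : k ≤ r) (δ : ℝ) (hδ0 : 0 < δ)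
    (hδ : δ < (r + 1 - k) / (r * (k + 1))) (p ε : ℝ) (hε : 0 < ε) :
    ∃ (f : (Fin (r + 2) → ℝ) → ℝ → ℝ) (γ : ℝ → Fin (r + 2) → ℝ),
      ContDiff ℝ k (fun q : (Fin (r + 2) → ℝ) × ℝ => f q.1 q.2) ∧ Periodic f ∧
      (∀ i ≤ k, ∀ q, ‖iteratedFDeriv ℝ i (fun q : (Fin (r + 2) → ℝ) × ℝ => f q.1 q.2) q‖ ≤ ε) ∧
      (∀ x t, f x t ≠ 0 → InSlab p ε x) ∧
      (∀ t, 0 ≤ t → |γ t 1 - p| < ε) ∧
      (∃ c > 0, ∀ t, 0 ≤ t → c * t ^ δ ≤ ‖deriv γ t‖) ∧
      ∀ L : (Fin (r + 2) → ℝ) → (Fin (r + 2) → ℝ) → ℝ → ℝ,
        (∀ x v t, InSlab p ε x → L x v t = (∑ i, v i ^ 2) / 2) →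
        ∀ t, 0 < t → EulerLagrange (fun x v t => L x v t + f x t) γ t :=
  main fn_all (bnd_all fn_all) per_all sum_all dio_all seq_all k r hk hr δ hδ0 hδ p ε hε

end Pool.Agent.Results.MP_6acca1_an.SmallPotentialEscape
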