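import Pool.Agent.N980.TL.Main2
import Pool.Agent.N980.TL.FN
import Pool.Agent.N980.TL.BND
import Pool.Agent.N980.TL.Per
import Pool.Agent.N980.TL.SUM2
import Pool.Agent.N980.TL.VBD
import Pool.Agent.N980.TL.VINF
import Pool.Agent.N980.TL.UU

set_option autoImplicit false

/-!
# Arbitrarily `C²`-small potentials with orbits which tend to infinity, in every dimension `n ≥ 2`

Let `n = m + 2 ≥ 2`. For every `ε > 0` and every closed geodesic `{x_i = p_i for i ≠ 0}` of the flat
torus `𝕋^n` there is a potential `f` of class `C²` on `𝕋^n × 𝕋`, supported in the `ε`-tube around the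
geodesic, all of whose derivatives of order at most `2` are bounded by `ε`, and a curve `γ` in the tube
whose velocity tends to infinity, such that `γ` is an orbit of `L + f` for every Lagrangian `L` which is
equal to `|v|²/2` on the tube; outside of the tube `L` is arbitrary. So the tube may be a piece of any
manifold.

Idea of the proof: the particle runs along the geodesic with velocity `V → ∞` and drifts in the
direction `x_1` with velocity `~ 1/(t log² t)`, so that it converges. It carries a small moving bump
potential, switched on for `1/4 ≤ t - [t] ≤ 3/4`, of radius `~ 1/t` when `V` is not close to a rational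
number with denominator at most `log² t`, and of radius `~ 1/(t log² t)` otherwise. Two bumps of
different periods of time never meet: if they are close in `x_1`, their distance in `x_0` is close to
`g V`, `g ≤ log² t`. The radii `1/t` are not summable and are used most of the time, so `V → ∞`.

Leaves of the proof were written by helpers 657, 881, 189, 946, 507, 346, 751; see
`Pool/Agent/N980/TL`.
-/

open Filter Topology
open scoped ContDiff

namespace Pool.Agent.Results.MP_6acca1_an.TubeEscapeAllDimensions

open Pool.Agent.N980.TL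

theorem result (m : ℕ) (p : Fin (m + 2) → ℝ) (ε : ℝ) (hε : 0 < ε) :
    ∃ (f : (Fin (m + 2) → ℝ) → ℝ → ℝ) (γ : ℝ → Fin (m + 2) → ℝ),
      ContDiff ℝ 2 (fun q : (Fin (m + 2) → ℝ) × ℝ => f q.1 q.2) ∧ Periodic f ∧
      (∀ i ≤ 2, ∀ q, ‖iteratedFDeriv ℝ i (fun q : (Fin (m + 2) → ℝ) × ℝ => f q.1 q.2) q‖ ≤ ε) ∧
      (∀ x t, f x t ≠ 0 → InTube p ε x) ∧
      (∀ t, 0 ≤ t → ∀ i, i ≠ 0 → |γ t i - p i| < ε) ∧
      Tendsto (fun t => ‖deriv γ t‖) atTop atTop ∧
      ∀ L : (Fin (m + 2) → ℝ) → (Fin (m + 2) → ℝ) → ℝ → ℝ,
        (∀ x v t, InTube p ε x → L x v t = (∑ i, v i ^ 2) / 2) →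
        ∀ t, 0 < t → EulerLagrange (fun x v t => L x v t + f x t) γ t :=
  main2 fn_all (bnd_all fn_all) per_all sum2_all vbd_all vinf_all uu_all m p ε hε

end Pool.Agent.Results.MP_6acca1_an.TubeEscapeAllDimensions
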